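import Pool.Graph.R_pool_sql_team_seeded_2aa45f1a.Q324.BD.Lemmas
import Pool.Graph.R_seed8.R550.HSGap

set_option autoImplicit false

/-!
# The graph of a hitting set instance, with logarithmically many auxiliary vertices
-/

namespace Pool.Agent.KS6_14.BD

open Pool.Agent.Q324.BD (LD)
open Pool.Agent.R550.HS (Hits)

/-- vertices: the universal vertex, the elements, two vertices for each hyperedge, pairs of twins -/
inductive Vx (N M L : ℕ) : Type
  | u : Vx N M L
  | v (i : Fin N) : Vx N M L
  | a (j : Fin M) (s : Bool) : Vx N M L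
  | c (l : Fin L) (s : Bool) : Vx N M L
  deriving DecidableEq

/-- labels -/
abbrev Lb : Type := ℕ × ℕ × Bool

/-- the label of a vertex -/
def code {N M L : ℕ} : Vx N M L → Lb
  | .u => (0, 0, false)
  | .v i => (1, i.1, false)
  | .a j s => (2, j.1, s)
  | .c l s => (3, l.1, s)

theorem code_inj {N M L : ℕ} : Function.Injective (code : Vx N M L → Lb) := by
  intro x y h
  cases x <;> cases y <;> simp [code, Fin.val_inj] at h ⊢ <;> exact h

/-- the code of the number `k`: its `e` binary digits, followed by `1, 1, 0` -/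
def cd (e k l : ℕ) : Bool := if l < e then (Nat.bits k).getD l false else decide (l ≤ e + 1)

/-- adjacency of labels (one direction) -/
def ad (N e : ℕ) (H : List (List ℕ)) (x y : Lb) : Bool :=
  decide (x.1 = 0) ||
  (decide (x.1 = 1) && ((decide (y.1 = 2) && (y.2.2 && decide (x.2.1 ∈ H.getD y.2.1 []))) ||
    (decide (y.1 = 3) && cd e x.2.1 y.2.1))) ||
  (decide (x.1 = 2) && (decide (y.1 = 3) && cd e (N + x.2.1) y.2.1)) ||
  (decide (x.1 = 3) && (decide (y.1 = 3) && decide (x.2.1 = y.2.1)))

/-- the graph -/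
def GG (N e : ℕ) (H : List (List ℕ)) : SimpleGraph (Vx N H.length (e + 3)) where
  Adj x y := code x ≠ code y ∧ (ad N e H (code x) (code y) = true ∨
    ad N e H (code y) (code x) = true)
  symm := ⟨fun _ _ h => ⟨h.1.symm, h.2.symm⟩⟩
  loopless := ⟨fun _ h => h.1 rfl⟩

variable {N e : ℕ} {H : List (List ℕ)}

theorem adj_iff {x y : Vx N H.length (e + 3)} : (GG N e H).Adj x y ↔ code x ≠ code y ∧
    (ad N e H (code x) (code y) = true ∨ ad N e H (code y) (code x) = true) := Iff.rfl

theorem adj_u {x : Vx N H.length (e + 3)} : (GG N e H).Adj .u x ↔ x ≠ .u := by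
  rw [adj_iff, code_inj.ne_iff]
  cases x <;> simp [code, ad]

theorem adj_va {i : Fin N} {j : Fin H.length} {s : Bool} :
    (GG N e H).Adj (.v i) (.a j s) ↔ s = true ∧ i.1 ∈ H.getD j.1 [] := by
  rw [adj_iff, code_inj.ne_iff]
  simp [code, ad]

theorem adj_vv {i j : Fin N} : ¬ (GG N e H).Adj (.v i) (.v j) := by
  rw [adj_iff]
  simp [code, ad]

theorem adj_aa {i j : Fin H.length} {s t : Bool} : ¬ (GG N e H).Adj (.a i s) (.a j t) := by
  rw [adj_iff]
  simp [code, ad]

theorem adj_vc {i : Fin N} {l : Fin (e + 3)} {s : Bool} :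
    (GG N e H).Adj (.v i) (.c l s) ↔ cd e i.1 l.1 = true := by
  rw [adj_iff, code_inj.ne_iff]
  simp [code, ad]

theorem adj_ac {j : Fin H.length} {l : Fin (e + 3)} {s t : Bool} :
    (GG N e H).Adj (.a j t) (.c l s) ↔ cd e (N + j.1) l.1 = true := by
  rw [adj_iff, code_inj.ne_iff]
  simp [code, ad]

theorem adj_cc {l l' : Fin (e + 3)} {s s' : Bool} :
    (GG N e H).Adj (.c l s) (.c l' s') ↔ l = l' ∧ s ≠ s' := by
  rw [adj_iff, code_inj.ne_iff]
  simp only [ne_eq, Vx.c.injEq, code, ad]
  simp [Fin.val_inj]
  constructor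
  · rintro ⟨h1, h2 | h2⟩
    · exact ⟨h2, fun h => h1 h2 h⟩
    · exact ⟨h2.symm, fun h => h1 h2.symm h⟩
  · rintro ⟨h1, h2⟩
    exact ⟨fun _ h => h2 h, Or.inl h1⟩

/-- binary digits determine the number -/
theorem bits_ext {e k k' : ℕ} (hk : k < 2 ^ e) (hk' : k' < 2 ^ e)
    (h : ∀ l < e, (Nat.bits k).getD l false = (Nat.bits k').getD l false) : k = k' := by
  have key : ∀ (n l : ℕ), (Nat.bits n).getD l false = n.testBit l := by
    intro n l
    rw [Nat.testBit_eq_inth]
    simp [List.getI]
  apply Nat.eq_of_testBit_eq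
  intro l
  by_cases hl : l < e
  · rw [← key, ← key]
    exact h l hl
  · have h1 : k < 2 ^ l := hk.trans_le (Nat.pow_le_pow_right (by norm_num) (by omega))
    have h2 : k' < 2 ^ l := hk'.trans_le (Nat.pow_le_pow_right (by norm_num) (by omega))
    rw [Nat.testBit_lt_two_pow h1, Nat.testBit_lt_two_pow h2]

theorem cd_lt {k l : ℕ} (h : l < e) : cd e k l = (Nat.bits k).getD l false := by
  unfold cd
  rw [if_pos h]

theorem cd_e {k : ℕ} : cd e k e = true := by simp [cd]
theorem cd_e1 {k : ℕ} : cd e k (e + 1) = true := by simp [cd]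
theorem cd_e2 {k : ℕ} : cd e k (e + 2) = false := by simp [cd]

/-- the adjacency to the twins `c l true` -/
def T (N e : ℕ) {M : ℕ} : Vx N M (e + 3) → ℕ → Bool
  | .u, _ => true
  | .v i, l => cd e i.1 l
  | .a j _, l => cd e (N + j.1) l
  | .c l' _, l => decide (l'.1 = l)

theorem T_iff {x : Vx N H.length (e + 3)} (l : Fin (e + 3)) (hx : x ≠ .c l true) :
    (GG N e H).Adj (.c l true) x ↔ T N e x l.1 = true := by
  cases x with
  | u => simp only [T, iff_true]; exact (adj_u.2 (by simp)).symm
  | v i => rw [SimpleGraph.adj_comm, adj_vc]; rfl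
  | a j s => rw [SimpleGraph.adj_comm, adj_ac]; rfl
  | c l' s =>
    rw [adj_cc]
    simp only [T, decide_eq_true_eq, Fin.val_inj]
    constructor
    · rintro ⟨h, -⟩; exact h.symm
    · rintro rfl
      refine ⟨rfl, ?_⟩
      rintro rfl
      exact hx rfl

theorem LD_of_hits [DecidableEq (Vx N H.length (e + 3))] (he : N + H.length ≤ 2 ^ e) {X : Finset ℕ} {k : ℕ}
    (hX : Hits X H) (hN : ∀ C ∈ H, ∀ a ∈ C, a < N) (hk : X.card ≤ k) :
    ∃ S : Finset (Vx N H.length (e + 3)), S.card ≤ k + (e + 3) ∧ LD (GG N e H) S := by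
  refine ⟨(Finset.univ.filter fun i : Fin N => i.1 ∈ X).image .v ∪
    (Finset.univ : Finset (Fin (e + 3))).image (fun l => .c l true), ?_, ?_⟩
  · refine (Finset.card_union_le _ _).trans (Nat.add_le_add ?_ ?_)
    · refine Finset.card_image_le.trans (le_trans ?_ hk)
      rw [← Finset.card_map Fin.valEmbedding]
      apply Finset.card_le_card
      intro i hi
      simp only [Finset.mem_map, Finset.mem_filter, Finset.mem_univ, true_and,
        Fin.valEmbedding_apply] at hi
      obtain ⟨j, hj, rfl⟩ := hi
      exact hj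
    · exact Finset.card_image_le.trans (by simp)
  · intro x y hxy hx hy
    by_contra hcon
    push Not at hcon
    have hmem : ∀ z, z ∈ (Finset.univ.filter fun i : Fin N => i.1 ∈ X).image Vx.v ∪
        (Finset.univ : Finset (Fin (e + 3))).image (fun l => (.c l true : Vx N H.length (e + 3))) ↔
        (∃ i : Fin N, i.1 ∈ X ∧ .v i = z) ∨ ∃ l, .c l true = z := by
      intro z
      simp
    have hT : ∀ l : ℕ, l < e + 3 → T N e x l = T N e y l := by
      intro l hl
      have h1 := hcon (.c ⟨l, hl⟩ true) ((hmem _).2 (Or.inr ⟨_, rfl⟩))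
      rw [T_iff ⟨l, hl⟩ (fun h => hx (by rw [h]; exact (hmem _).2 (Or.inr ⟨_, rfl⟩))),
        T_iff ⟨l, hl⟩ (fun h => hy (by rw [h]; exact (hmem _).2 (Or.inr ⟨_, rfl⟩)))] at h1
      exact Bool.eq_iff_iff.2 h1
    have hs : ∀ l s, (.c l s : Vx N H.length (e + 3)) = x ∨ (.c l s : Vx N H.length (e + 3)) = y →
        s = false := by
      intro l s h
      by_contra hs
      have hs : s = true := by simpa using hs
      subst hs
      rcases h with rfl | rfl
      · exact hx ((hmem _).2 (Or.inr ⟨_, rfl⟩))
      · exact hy ((hmem _).2 (Or.inr ⟨_, rfl⟩))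
    have e0 := hT e (by omega)
    have e1 := hT (e + 1) (by omega)
    have e2 := hT (e + 2) (by omega)
    have hbit : ∀ k k' : ℕ, k < N + H.length → k' < N + H.length →
        (∀ l, l < e + 3 → cd e k l = cd e k' l) → k = k' := by
      intro k k' hk hk' h
      refine bits_ext (hk.trans_le he) (hk'.trans_le he) fun l hl => ?_
      have := h l (by omega)
      rwa [cd_lt hl, cd_lt hl] at this
    -- the two vertices of a hyperedge
    have ha : ∀ j s t, x = .a j s → y = .a j t → False := by
      rintro j s t rfl rfl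
      have hst : s ≠ t := fun h => hxy (by rw [h])
      obtain ⟨i, hi, hiX⟩ := hX _ (List.getElem_mem j.2)
      have h1 := hcon (.v ⟨i, hN _ (List.getElem_mem j.2) i hi⟩) ((hmem _).2 (Or.inl ⟨_, hiX, rfl⟩))
      rw [adj_va, adj_va] at h1
      have h2 : i ∈ H.getD j.1 [] := by rw [List.getD_eq_getElem _ _ j.2]; exact hi
      simp only [h2, and_true] at h1
      cases s <;> cases t <;> simp at h1 hst
    cases x with
    | u =>
      cases y with
      | u => exact hxy rfl
      | v i => simp [T, cd_e2] at e2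
      | a j s => simp [T, cd_e2] at e2
      | c l s =>
        simp only [T] at e0 e1
        have h0 : l.1 = e := by simpa using e0.symm
        have h1 : l.1 = e + 1 := by simpa using e1.symm
        omega
    | v i =>
      cases y with
      | u => simp [T, cd_e2] at e2
      | v i' =>
        have := hbit i.1 i'.1 (by omega) (by omega) hT
        exact hxy (by rw [Fin.ext this])
      | a j s =>
        have := hbit i.1 (N + j.1) (by omega) (by omega) hT
        omega
      | c l s =>
        simp only [T, cd_e, cd_e1] at e0 e1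
        have h0 : l.1 = e := by simpa using e0.symm
        have h1 : l.1 = e + 1 := by simpa using e1.symm
        omega
    | a j s =>
      cases y with
      | u => simp [T, cd_e2] at e2
      | v i =>
        have := hbit (N + j.1) i.1 (by omega) (by omega) hT
        omega
      | a j' t =>
        have := hbit (N + j.1) (N + j'.1) (by omega) (by omega) hT
        have h2 : j = j' := Fin.ext (by omega)
        subst h2
        exact ha j s t rfl rfl
      | c l s =>
        simp only [T, cd_e, cd_e1] at e0 e1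
        have h0 : l.1 = e := by simpa using e0.symm
        have h1 : l.1 = e + 1 := by simpa using e1.symm
        omega
    | c l s =>
      cases y with
      | u =>
        simp only [T] at e0 e1
        have h0 : l.1 = e := by simpa using e0
        have h1 : l.1 = e + 1 := by simpa using e1
        omega
      | v i =>
        simp only [T, cd_e, cd_e1] at e0 e1
        have h0 : l.1 = e := by simpa using e0
        have h1 : l.1 = e + 1 := by simpa using e1
        omega
      | a j t =>
        simp only [T, cd_e, cd_e1] at e0 e1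
        have h0 : l.1 = e := by simpa using e0
        have h1 : l.1 = e + 1 := by simpa using e1
        omega
      | c l' t =>
        have h1 := hT l.1 l.2
        simp only [T, decide_true] at h1
        have h2 : l'.1 = l.1 := by simpa using h1.symm
        have h3 : l = l' := Fin.ext h2.symm
        have h4 := hs l s (Or.inl rfl)
        have h5 := hs l' t (Or.inr rfl)
        exact hxy (by rw [h3, h4, h5])

theorem hits_of_LD {S : Finset (Vx N H.length (e + 3))} (hne : ∀ C ∈ H, C ≠ [])
    (hS : LD (GG N e H) S) : ∃ X : Finset ℕ, Hits X H ∧ X.card ≤ S.card := by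
  classical
  let g : Vx N H.length (e + 3) → ℕ := fun x => match x with
    | .u => 0
    | .v i => i.1
    | .a j _ => (H.getD j.1 []).getD 0 0
    | .c _ _ => 0
  refine ⟨S.image g, ?_, Finset.card_image_le⟩
  intro C hC
  obtain ⟨j, hj, rfl⟩ := List.getElem_of_mem hC
  have hfirst : ∀ s, (.a ⟨j, hj⟩ s : Vx N H.length (e + 3)) ∈ S →
      ∃ a ∈ H[j], a ∈ S.image g := by
    intro s hs
    have h0 : 0 < H[j].length := List.length_pos_iff.2 (hne _ (List.getElem_mem hj))
    refine ⟨H[j][0], List.getElem_mem h0, Finset.mem_image.2 ⟨_, hs, ?_⟩⟩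
    simp only [g]
    rw [List.getD_eq_getElem _ _ hj, List.getD_eq_getElem _ _ h0]
  by_cases h1 : (.a ⟨j, hj⟩ true : Vx N H.length (e + 3)) ∈ S
  · exact hfirst _ h1
  by_cases h2 : (.a ⟨j, hj⟩ false : Vx N H.length (e + 3)) ∈ S
  · exact hfirst _ h2
  obtain ⟨z, hz, hzz⟩ := hS (.a ⟨j, hj⟩ true) (.a ⟨j, hj⟩ false) (by simp) h1 h2
  cases z with
  | u => exact absurd (by simp [adj_u]) hzz
  | v i =>
    rw [adj_va, adj_va] at hzz
    simp only [true_and, Bool.false_eq_true, false_and, iff_false, not_not] at hzz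
    rw [List.getD_eq_getElem _ _ hj] at hzz
    exact ⟨i.1, hzz, Finset.mem_image.2 ⟨_, hz, rfl⟩⟩
  | a j' s => exact absurd (iff_of_false adj_aa adj_aa) hzz
  | c l s =>
    rw [SimpleGraph.adj_comm, adj_ac, SimpleGraph.adj_comm, adj_ac] at hzz
    exact absurd Iff.rfl hzz

end Pool.Agent.KS6_14.BD
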