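import Pool.Agent.KS6_14.BD.Graph
import Pool.Graph.R_pool_sql_team_seeded_2aa45f1a.Q324.Lab.Basic
import Pool.Graph.R_seed8.H569R2.Approx

set_option autoImplicit false

/-!
# The gap reduction to the broadcast dimension
-/

namespace Pool.Agent.KS6_14.BD

open Pool.Agent.NPC Pool.Agent.H692R2 Pool.Agent.Q324.Lab
open Pool.Agent.Q324.BD (LD bdim Resolving bdim_le_iff_LD diam2_of_universal LD_iso diam2_iso)
open Pool.Agent.R550.HS (Hits uPoly_powc)

/-- the labels of the vertices -/
def vs (N M L : ℕ) : List Lb :=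
  (0, 0, false) :: (((List.range N).map fun i => (1, i, false)) ++
    (((List.range M).flatMap fun j => [(2, j, true), (2, j, false)]) ++
      ((List.range L).flatMap fun l => [(3, l, true), (3, l, false)])))

theorem mem_vs {N M L : ℕ} (z : Lb) : z ∈ vs N M L ↔ ∃ x : Vx N M L, code x = z := by
  unfold vs
  simp only [List.mem_cons, List.mem_append, List.mem_flatMap, List.mem_range, List.mem_map,
    List.not_mem_nil, or_false]
  constructor
  · rintro (rfl | ⟨i, hi, rfl⟩ | ⟨j, hj, rfl | rfl⟩ | ⟨l, hl, rfl | rfl⟩)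
    · exact ⟨.u, rfl⟩
    · exact ⟨.v ⟨i, hi⟩, rfl⟩
    · exact ⟨.a ⟨j, hj⟩ true, rfl⟩
    · exact ⟨.a ⟨j, hj⟩ false, rfl⟩
    · exact ⟨.c ⟨l, hl⟩ true, rfl⟩
    · exact ⟨.c ⟨l, hl⟩ false, rfl⟩
  · rintro ⟨x, rfl⟩
    cases x with
    | u => exact Or.inl rfl
    | v i => exact Or.inr (Or.inl ⟨i.1, i.2, rfl⟩)
    | a j s =>
      refine Or.inr (Or.inr (Or.inl ⟨j.1, j.2, ?_⟩))
      cases s
      · exact Or.inr rfl
      · exact Or.inl rfl
    | c l s =>
      refine Or.inr (Or.inr (Or.inr ⟨l.1, l.2, ?_⟩))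
      cases s
      · exact Or.inr rfl
      · exact Or.inl rfl

theorem nodup_vs {N M L : ℕ} : (vs N M L).Nodup := by
  have key : ∀ (t n : ℕ), ((List.range n).flatMap fun g => [(t, g, true), (t, g, false)]).Nodup := by
    intro t n
    rw [List.nodup_flatMap]
    refine ⟨fun g _ => by simp, ?_⟩
    refine List.nodup_range.imp ?_
    intro a b hab x hx hx'
    simp only [List.mem_cons, List.not_mem_nil, or_false] at hx hx'
    rcases hx with rfl | rfl <;> rcases hx' with h | h <;> simp at h <;> exact hab h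
  unfold vs
  rw [List.nodup_cons]
  refine ⟨?_, ?_⟩
  · simp
  · rw [List.nodup_append]
    refine ⟨List.Nodup.map (fun a b h => by simpa using h) List.nodup_range, ?_, ?_⟩
    · rw [List.nodup_append]
      refine ⟨key _ _, key _ _, ?_⟩
      intro a ha b hb
      simp only [List.mem_flatMap, List.mem_cons, List.not_mem_nil, or_false] at ha hb
      obtain ⟨j, _, rfl | rfl⟩ := ha <;> obtain ⟨e, _, rfl | rfl⟩ := hb <;> simp
    · intro a ha b hb
      simp only [List.mem_flatMap, List.mem_map, List.mem_cons, List.not_mem_nil, or_false,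
        List.mem_append] at ha hb
      obtain ⟨j, _, rfl⟩ := ha
      rcases hb with ⟨e, _, rfl | rfl⟩ | ⟨e, _, rfl | rfl⟩ <;> simp

/-- the number of binary digits -/
def ex (N : ℕ) (H : List (List ℕ)) : ℕ := (Nat.bits (N + H.length)).length

/-- the finite graph -/
def FG (N : ℕ) (H : List (List ℕ)) : FinGraph :=
  labGraph (vs N H.length (ex N H + 3)) (ad N (ex N H) H)

theorem FG_iso (N : ℕ) (H : List (List ℕ)) : Nonempty ((FG N H).graph ≃g GG N (ex N H) H) :=
  labIso _ nodup_vs code code_inj mem_vs (fun _ _ => Iff.rfl)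

theorem FG_universal (N : ℕ) (H : List (List ℕ)) : ∃ u, ∀ v, v ≠ u → (FG N H).graph.Adj u v := by
  obtain ⟨e⟩ := FG_iso N H
  exact diam2_iso e ⟨.u, fun v hv => adj_u.2 hv⟩

theorem le_two_pow_ex (N : ℕ) (H : List (List ℕ)) : N + H.length ≤ 2 ^ ex N H := by
  unfold ex
  rw [Nat.size_eq_bits_len]
  exact (Nat.lt_size_self _).le

theorem bdim_le {N : ℕ} {H : List (List ℕ)} {X : Finset ℕ} {k : ℕ} (hX : Hits X H)
    (hN : ∀ C ∈ H, ∀ a ∈ C, a < N) (hk : X.card ≤ k) : bdim (FG N H).graph ≤ k + (ex N H + 3) := by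
  classical
  obtain ⟨e⟩ := FG_iso N H
  rw [bdim_le_iff_LD (diam2_of_universal (FG_universal N H))]
  exact LD_iso e.symm (LD_of_hits (le_two_pow_ex N H) hX hN hk)

theorem exists_hits {N : ℕ} {H : List (List ℕ)} (hne : ∀ C ∈ H, C ≠ []) :
    ∃ X : Finset ℕ, Hits X H ∧ X.card ≤ bdim (FG N H).graph := by
  classical
  obtain ⟨e⟩ := FG_iso N H
  obtain ⟨S, hS, hLD⟩ := LD_iso e ((bdim_le_iff_LD (diam2_of_universal (FG_universal N H)) _).1 le_rfl)
  obtain ⟨X, hX, hXc⟩ := hits_of_LD hne hLD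
  exact ⟨X, hX, hXc.trans hS⟩

/-! ### polynomial time -/

variable {α : Type} [TEnc α]

theorem poly_FG {N : α → ℕ} {H : α → List (List ℕ)} (hN : UPoly N) (hH : Poly H) :
    Poly (fun a => FG (N a) (H a)) := by
  have hM : UPoly (fun a => (H a).length) := UPoly.length hH
  have hNp : Poly N := hN.toPoly
  have hE : UPoly (fun a => ex (N a) (H a)) := by
    unfold ex
    exact UPoly.length (Poly.natBits (UPoly.add hN hM).toPoly)
  have hEp : Poly (fun a => ex (N a) (H a)) := hE.toPoly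
  have hvs : Poly (fun a => vs (N a) (H a).length (ex (N a) (H a) + 3)) := by
    have h1 : Poly (fun a => List.range (N a)) := UPoly.range hN
    have h2 : Poly (fun a => List.range (H a).length) := UPoly.range hM
    have h3 : Poly (fun a => List.range (ex (N a) (H a) + 3)) :=
      UPoly.range (UPoly.add hE (UPoly.const 3))
    unfold vs
    refine NPC.Poly.cons (NPC.Poly.const _) (Poly.append ?_ (Poly.append ?_ ?_))
    · exact NPC.Poly.map (F := fun _ g => ((1, g, false) : Lb)) h1 (by fun_prop)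
    · exact NPC.Poly.flatMap (F := fun _ g => [((2, g, true) : Lb), (2, g, false)]) h2 (by fun_prop)
    · exact NPC.Poly.flatMap (F := fun _ g => [((3, g, true) : Lb), (3, g, false)]) h3 (by fun_prop)
  refine poly_labGraph hvs ?_
  have hcd : ∀ {β : Type} [TEnc β] {e k l : β → ℕ}, Poly e → Poly k → Poly l →
      Poly (fun b => cd (e b) (k b) (l b)) := by
    intro β _ e k l he hk hl
    unfold cd
    have hb : Poly (fun b => (k b).bits) := Poly.natBits hk
    fun_prop
  unfold ad
  have c1 : Poly (fun p : (α × Lb) × Lb => cd (ex (N p.1.1) (H p.1.1)) p.1.2.2.1 p.2.2.1) :=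
    hcd (hEp.comp (Poly.fst (Poly.fst Poly.id))) (by fun_prop) (by fun_prop)
  have c2 : Poly (fun p : (α × Lb) × Lb =>
      cd (ex (N p.1.1) (H p.1.1)) (N p.1.1 + p.1.2.2.1) p.2.2.1) :=
    hcd (hEp.comp (Poly.fst (Poly.fst Poly.id))) (by fun_prop) (by fun_prop)
  fun_prop

end Pool.Agent.KS6_14.BD
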